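import Mathlib

set_option autoImplicit false

/-!
Covers of the cube by boxes, inserted one label at a time.
-/

namespace H305GL

/-- running maximum with 0 -/
noncomputable def mx (f : ℕ → ℝ) : ℕ → ℝ
  | 0 => 0
  | (n + 1) => max (mx f n) (f n)

theorem mx_nonneg (f : ℕ → ℝ) (n : ℕ) : 0 ≤ mx f n := by
  induction n with
  | zero => exact le_rfl
  | succ n ih => exact le_trans ih (le_max_left _ _)

theorem le_mx (f : ℕ → ℝ) (n i : ℕ) (h : i < n) : f i ≤ mx f n := by
  induction n with
  | zero => omega
  | succ n ih =>
    rcases Nat.lt_succ_iff_lt_or_eq.1 h with h1 | h1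
    · exact le_trans (ih h1) (le_max_left _ _)
    · subst h1; exact le_max_right _ _

theorem mx_le (f : ℕ → ℝ) (n : ℕ) (c : ℝ) (hc : 0 ≤ c) (h : ∀ i, i < n → f i ≤ c) : mx f n ≤ c := by
  induction n with
  | zero => exact hc
  | succ n ih => exact max_le (ih (fun i hi => h i (by omega))) (h n (by omega))

section
variable {r : ℕ} (D : Fin r → ℕ → ℕ → Prop) (w : ℕ → ℕ → ℝ)

open Classical in
/-- left corner of the label `m`, given the right ends `B` of the earlier labels -/
noncomputable def corner (B : ℕ → Fin r → ℝ) (m : ℕ) (k : Fin r) : ℝ :=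
  mx (fun i => if D k i m then w m i * B i k else 0) m

open Classical in
/-- right ends at stage `m` (labels `< m` present) -/
noncomputable def Bst : ℕ → ℕ → Fin r → ℝ
  | 0 => fun _ _ => 1
  | (m + 1) => fun i k => if D k i m then min (Bst m i k) (corner D w (Bst m) m k) else Bst m i k

/-- left corner of the label `m` -/
noncomputable def Ast (m : ℕ) (k : Fin r) : ℝ := corner D w (Bst D w m) m k

theorem Bst_succ_of (m i : ℕ) (k : Fin r) (h : D k i m) :
    Bst D w (m + 1) i k = min (Bst D w m i k) (Ast D w m k) := by
  simp only [Bst, Ast, if_pos h]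

theorem Bst_succ_not (m i : ℕ) (k : Fin r) (h : ¬ D k i m) :
    Bst D w (m + 1) i k = Bst D w m i k := by
  simp only [Bst, if_neg h]

theorem Ast_nonneg (m : ℕ) (k : Fin r) : 0 ≤ Ast D w m k := mx_nonneg _ _

theorem Bst_le_one (m i : ℕ) (k : Fin r) : Bst D w m i k ≤ 1 := by
  induction m with
  | zero => simp [Bst]
  | succ m ih =>
    by_cases h : D k i m
    · rw [Bst_succ_of D w m i k h]; exact le_trans (min_le_left _ _) ih
    · rw [Bst_succ_not D w m i k h]; exact ih

theorem Bst_nonneg (m i : ℕ) (k : Fin r) : 0 ≤ Bst D w m i k := by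
  induction m with
  | zero => simp [Bst]
  | succ m ih =>
    by_cases h : D k i m
    · rw [Bst_succ_of D w m i k h]; exact le_min ih (Ast_nonneg D w m k)
    · rw [Bst_succ_not D w m i k h]; exact ih

theorem Bst_succ_le (m i : ℕ) (k : Fin r) : Bst D w (m + 1) i k ≤ Bst D w m i k := by
  by_cases h : D k i m
  · rw [Bst_succ_of D w m i k h]; exact min_le_left _ _
  · rw [Bst_succ_not D w m i k h]

theorem Bst_anti (m n i : ℕ) (k : Fin r) (h : m ≤ n) : Bst D w n i k ≤ Bst D w m i k := by
  induction n, h using Nat.le_induction with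
  | base => exact le_rfl
  | succ n _ ih => exact le_trans (Bst_succ_le D w n i k) ih

/-- separation -/
theorem Bst_le_Ast (n i j : ℕ) (k : Fin r) (hjn : j < n) (h : D k i j) :
    Bst D w n i k ≤ Ast D w j k := by
  refine le_trans (Bst_anti D w (j + 1) n i k hjn) ?_
  rw [Bst_succ_of D w j i k h]
  exact min_le_right _ _

theorem Bst_eq_one (hlt : ∀ k i j, D k i j → i < j) (n i : ℕ) (k : Fin r) (h : n ≤ i + 1) :
    Bst D w n i k = 1 := by
  induction n with
  | zero => simp [Bst]
  | succ n ih =>
    have h1 : ¬ D k i n := fun h2 => by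
      have := hlt k i n h2
      omega
    rw [Bst_succ_not D w n i k h1]
    exact ih (by omega)

variable (t : ℕ → ℝ)

/-- active labels at stage `n` -/
def Act (i n : ℕ) : Prop := (i = 0 ∨ 0 < t i) ∧ ∀ j, i < j → j < n → t j < 1

/-- The insertion lemma, iterated: the active boxes cover the cube. -/
theorem cover
    (hlt : ∀ k i j, D k i j → i < j)
    (hdisj : ∀ k l i j, D k i j → D l i j → k = l)
    (hco : ∀ k i j l, D k i l → i < j → j < l → D k i j ∨ D k j l)
    (hw1 : ∀ m i, w m i ≤ 1)
    (hw : ∀ m i j, w m i < 1 → i < j → w m j = 0)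
    (ht0 : ∀ m i, i < m → t m = 0 → w m i = 1)
    (ht1 : ∀ m i, t m = 1 → w m i = 0)
    (htn : ∀ m, 0 ≤ t m) (htl : ∀ m, t m ≤ 1)
    (n : ℕ) (hn : 1 ≤ n) (q : Fin r → ℝ) (hq0 : ∀ k, 0 ≤ q k) (hq1 : ∀ k, q k ≤ 1) :
    ∃ i, i < n ∧ Act t i n ∧ ∀ k, Ast D w i k ≤ q k ∧ q k ≤ Bst D w n i k := by
  induction n, hn using Nat.le_induction with
  | base =>
    refine ⟨0, by omega, ⟨Or.inl rfl, fun j h1 h2 => by omega⟩, fun k => ⟨?_, ?_⟩⟩
    · have : Ast D w 0 k = 0 := by simp [Ast, corner, mx]
      rw [this]; exact hq0 k
    · rw [Bst_eq_one D w hlt 1 0 k (by omega)]; exact hq1 k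
  | succ m hm ih =>
    obtain ⟨i, him, ⟨hact1, hact2⟩, hcov⟩ := ih
    rcases eq_or_lt_of_le (htl m) with h1 | h1
    · -- the new box is the whole cube
      refine ⟨m, by omega, ⟨Or.inr (by rw [h1]; exact one_pos), fun j h2 h3 => by omega⟩, fun k => ⟨?_, ?_⟩⟩
      · refine le_trans (mx_le _ _ 0 le_rfl ?_) (hq0 k)
        intro j _
        split_ifs
        · rw [ht1 m j h1]; simp
        · exact le_rfl
      · rw [Bst_eq_one D w hlt (m + 1) m k le_rfl]; exact hq1 k
    · by_cases hcase : ∀ k, q k ≤ Bst D w (m + 1) i k
      · refine ⟨i, by omega, ⟨hact1, fun j h2 h3 => ?_⟩, fun k => ⟨(hcov k).1, hcase k⟩⟩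
        rcases Nat.lt_succ_iff_lt_or_eq.1 h3 with h4 | h4
        · exact hact2 j h2 h4
        · rw [h4]; exact h1
      · push Not at hcase
        obtain ⟨k, hk⟩ := hcase
        have hDk : D k i m := by
          by_contra hcon
          rw [Bst_succ_not D w m i k hcon] at hk
          exact absurd (hcov k).2 (not_le.2 hk)
        rw [Bst_succ_of D w m i k hDk] at hk
        have hAq : Ast D w m k < q k := by
          rcases min_lt_iff.1 hk with h2 | h2
          · exact absurd (hcov k).2 (not_le.2 h2)
          · exact h2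
        -- the coefficient of `i`
        have hterm : ∀ l j, j < m → D l j m → w m j * Bst D w m j l ≤ Ast D w m l := by
          intro l j hj hD
          refine le_trans (le_of_eq ?_) (le_mx _ m j hj)
          simp only [if_pos hD]
        have hwi : w m i < 1 := by
          by_contra hcon
          push Not at hcon
          have h3 := hterm k i him hDk
          have h4 : Bst D w m i k ≤ w m i * Bst D w m i k := by
            nlinarith [Bst_nonneg D w m i k]
          linarith [(hcov k).2]
        have htm : 0 < t m := by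
          rcases eq_or_lt_of_le (htn m) with h5 | h5
          · have := ht0 m i him h5.symm
            linarith
          · exact h5
        refine ⟨m, by omega, ⟨Or.inr htm, fun j h2 h3 => by omega⟩, fun l => ⟨?_, ?_⟩⟩
        · apply mx_le _ _ _ (hq0 l)
          intro j hj
          by_cases hDl : D l j m
          · simp only [if_pos hDl]
            by_cases hlk : l = k
            · subst hlk
              exact le_trans (hterm l j hj hDl) hAq.le
            · rcases lt_trichotomy j i with hji | hji | hji
              · rcases hco l j i m hDl hji him with h6 | h6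
                · have h7 := Bst_le_Ast D w m j i l him h6
                  have h8 := (hcov l).1
                  have h9 : w m j * Bst D w m j l ≤ 1 * Bst D w m j l :=
                    mul_le_mul_of_nonneg_right (hw1 m j) (Bst_nonneg D w m j l)
                  linarith
                · exact absurd (hdisj l k i m h6 hDk) hlk
              · subst hji
                exact absurd (hdisj l k j m hDl hDk) hlk
              · rw [hw m i j hwi hji]
                simpa using hq0 l
          · simp only [if_neg hDl]
            exact hq0 l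
        · rw [Bst_eq_one D w hlt (m + 1) m l le_rfl]; exact hq1 l

end

end H305GL
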