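import Pool.Agent.H305GL.Boxes
import Pool.Agent.H63Fed.Miranda

set_option autoImplicit false

/-!
Boxes with prescribed volumes.
-/

namespace H305GL

open MeasureTheory

theorem continuous_mx {X : Type*} [TopologicalSpace X] (f : X → ℕ → ℝ) (h : ∀ i, Continuous (fun x => f x i))
    (n : ℕ) : Continuous (fun x => mx (f x) n) := by
  induction n with
  | zero => exact continuous_const
  | succ n ih => exact ih.max (h n)

theorem vol_sum {r : ℕ} (I : Finset ℕ) (A B : ℕ → Fin r → ℝ)
    (h : ∀ q : Fin r → ℝ, (∀ k, 0 ≤ q k) → (∀ k, q k ≤ 1) → ∃ i ∈ I, ∀ k, A i k ≤ q k ∧ q k ≤ B i k) :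
    1 ≤ ∑ i ∈ I, ∏ k, max 0 (B i k - A i k) := by
  have h1 : (Set.Icc (0 : Fin r → ℝ) 1) ⊆ ⋃ i ∈ I, Set.Icc (A i) (B i) := by
    intro q hq
    obtain ⟨i, hi, hq2⟩ := h q (fun k => hq.1 k) (fun k => hq.2 k)
    simp only [Set.mem_iUnion]
    exact ⟨i, hi, fun k => (hq2 k).1, fun k => (hq2 k).2⟩
  have h2 : volume (Set.Icc (0 : Fin r → ℝ) 1) = 1 := by
    rw [Real.volume_Icc_pi]
    simp
  have h3 : volume (⋃ i ∈ I, Set.Icc (A i) (B i)) ≤ ∑ i ∈ I, volume (Set.Icc (A i) (B i)) :=
    measure_biUnion_finset_le I _
  have h4 : ∀ i, volume (Set.Icc (A i) (B i)) = ENNReal.ofReal (∏ k, max 0 (B i k - A i k)) := by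
    intro i
    rw [Real.volume_Icc_pi, ENNReal.ofReal_prod_of_nonneg (fun k _ => le_max_left _ _)]
    apply Finset.prod_congr rfl
    intro k _
    rcases le_total 0 (B i k - A i k) with h5 | h5
    · rw [max_eq_right h5]
    · rw [max_eq_left h5, ENNReal.ofReal_of_nonpos h5]; simp
  have h5 : (1 : ENNReal) ≤ ENNReal.ofReal (∑ i ∈ I, ∏ k, max 0 (B i k - A i k)) := by
    calc (1 : ENNReal) = volume (Set.Icc (0 : Fin r → ℝ) 1) := h2.symm
      _ ≤ volume (⋃ i ∈ I, Set.Icc (A i) (B i)) := measure_mono h1
      _ ≤ ∑ i ∈ I, volume (Set.Icc (A i) (B i)) := h3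
      _ = ∑ i ∈ I, ENNReal.ofReal (∏ k, max 0 (B i k - A i k)) := Finset.sum_congr rfl (fun i _ => h4 i)
      _ = ENNReal.ofReal (∑ i ∈ I, ∏ k, max 0 (B i k - A i k)) := by
          rw [ENNReal.ofReal_sum_of_nonneg]
          intro i _
          exact Finset.prod_nonneg (fun k _ => le_max_left _ _)
  exact ENNReal.one_le_ofReal.1 h5

/-- parameters -/
noncomputable def tx (n : ℕ) (x : Fin n → ℝ) : ℕ → ℝ
  | 0 => 1
  | (m + 1) => if h : m < n then x ⟨m, h⟩ else 0

/-- coefficients -/
noncomputable def wx (n : ℕ) (x : Fin n → ℝ) (m i : ℕ) : ℝ :=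
  max 0 (min 1 ((m : ℝ) * (1 - tx n x m) - i))

theorem continuous_tx (n m : ℕ) : Continuous (fun x : Fin n → ℝ => tx n x m) := by
  cases m with
  | zero => exact continuous_const
  | succ m =>
    by_cases h : m < n
    · simp only [tx, dif_pos h]
      exact continuous_apply _
    · simp only [tx, dif_neg h]
      exact continuous_const

theorem continuous_wx (n m i : ℕ) : Continuous (fun x : Fin n → ℝ => wx n x m i) := by
  unfold wx
  have := continuous_tx n m
  fun_prop

section
variable {r : ℕ} (D : Fin r → ℕ → ℕ → Prop)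

theorem continuous_Bst (n m : ℕ) : ∀ i k, Continuous (fun x : Fin n → ℝ => Bst D (wx n x) m i k) := by
  classical
  induction m with
  | zero => intro i k; exact continuous_const
  | succ m ih =>
    intro i k
    have hA : Continuous (fun x : Fin n → ℝ => Ast D (wx n x) m k) := by
      unfold Ast corner
      apply continuous_mx
      intro j
      by_cases h : D k j m
      · simp only [if_pos h]
        exact (continuous_wx n m j).mul (ih j k)
      · simp only [if_neg h]
        exact continuous_const
    by_cases h : D k i m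
    · simp only [Bst_succ_of D _ m i k h]
      exact (ih i k).min hA
    · simp only [Bst_succ_not D _ m i k h]
      exact ih i k

theorem continuous_Ast (n m : ℕ) (k : Fin r) : Continuous (fun x : Fin n → ℝ => Ast D (wx n x) m k) := by
  classical
  unfold Ast corner
  apply continuous_mx
  intro j
  by_cases h : D k j m
  · simp only [if_pos h]
    exact (continuous_wx n m j).mul (continuous_Bst D n m j k)
  · simp only [if_neg h]
    exact continuous_const

/-- volume of the box `i` -/
noncomputable def Vol (n : ℕ) (x : Fin n → ℝ) (i : ℕ) : ℝ :=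
  ∏ k, max 0 (Bst D (wx n x) (n + 1) i k - Ast D (wx n x) i k)

theorem continuous_Vol (n i : ℕ) : Continuous (fun x : Fin n → ℝ => Vol D n x i) := by
  unfold Vol
  apply continuous_finsetProd
  intro k _
  exact continuous_const.max ((continuous_Bst D n (n + 1) i k).sub (continuous_Ast D n i k))

/-- deficit -/
noncomputable def gg (n : ℕ) (x : Fin n → ℝ) (i : ℕ) : ℝ := max 0 (1 / ((n : ℝ) + 1) - Vol D n x i)

theorem exists_param
    (hlt : ∀ k i j, D k i j → i < j)
    (hdisj : ∀ k l i j, D k i j → D l i j → k = l)
    (hco : ∀ k i j l, D k i l → i < j → j < l → D k i j ∨ D k j l) (n : ℕ) :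
    ∃ x : Fin n → ℝ, ∀ i, i ≤ n → 1 / ((n : ℝ) + 1) ≤ Vol D n x i := by
  classical
  have hgc : ∀ i, Continuous (fun x : Fin n → ℝ => gg D n x i) := by
    intro i
    unfold gg
    exact continuous_const.max (continuous_const.sub (continuous_Vol D n i))
  have hg0 : ∀ (x : Fin n → ℝ) i, 0 ≤ gg D n x i := fun x i => le_max_left _ _
  let F : (Fin n → ℝ) → (Fin n → ℝ) := fun x m =>
    x m * (∑ j ∈ Finset.range (m.1 + 2), gg D n x j) - gg D n x (m.1 + 1)
  obtain ⟨x, hx, hFx⟩ := H63Fed.Miranda.poincare_miranda n F
    (by
      apply Continuous.continuousOn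
      apply continuous_pi
      intro m
      exact ((continuous_apply m).mul (continuous_finsetSum _ (fun j _ => hgc j))).sub (hgc _))
    (by
      intro x _ m hxm
      simp only [F, hxm, zero_mul, zero_sub]
      have := hg0 x (m.1 + 1)
      linarith)
    (by
      intro x _ m hxm
      simp only [F, hxm, one_mul]
      rw [Finset.sum_range_succ]
      have : 0 ≤ ∑ j ∈ Finset.range (m.1 + 1), gg D n x j := Finset.sum_nonneg (fun j _ => hg0 x j)
      linarith)
  refine ⟨x, ?_⟩
  have htn : ∀ m, 0 ≤ tx n x m := by
    intro m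
    cases m with
    | zero => simp [tx]
    | succ m =>
      by_cases h : m < n
      · simp only [tx, dif_pos h]; exact (hx _).1
      · simp only [tx, dif_neg h]; exact le_rfl
  have htl : ∀ m, tx n x m ≤ 1 := by
    intro m
    cases m with
    | zero => simp [tx]
    | succ m =>
      by_cases h : m < n
      · simp only [tx, dif_pos h]; exact (hx _).2
      · simp only [tx, dif_neg h]; exact zero_le_one
  -- some active box is large
  obtain ⟨i, hin, hact, hbig⟩ : ∃ i, i < n + 1 ∧ Act (tx n x) i (n + 1) ∧
      1 / ((n : ℝ) + 1) ≤ Vol D n x i := by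
    by_contra hcon
    push Not at hcon
    let I : Finset ℕ := (Finset.range (n + 1)).filter (fun i => Act (tx n x) i (n + 1))
    have hcov : 1 ≤ ∑ i ∈ I, ∏ k, max 0 (Bst D (wx n x) (n + 1) i k - Ast D (wx n x) i k) := by
      apply vol_sum
      intro q hq0 hq1
      obtain ⟨i, h1, h2, h3⟩ := cover D (wx n x) (tx n x) hlt hdisj hco
        (fun m i => by
          unfold wx
          exact max_le zero_le_one (min_le_left _ _))
        (fun m i j h hij => by
          unfold wx at h ⊢
          have h4 : (m : ℝ) * (1 - tx n x m) - i < 1 := by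
            by_contra hc
            push Not at hc
            rw [min_eq_left hc] at h
            simp at h
          have h5 : (i : ℝ) + 1 ≤ j := by exact_mod_cast hij
          apply max_eq_left
          exact le_trans (min_le_right _ _) (by linarith))
        (fun m i him h => by
          unfold wx
          rw [h]
          have h5 : (i : ℝ) + 1 ≤ m := by exact_mod_cast him
          rw [min_eq_left (by linarith)]
          simp)
        (fun m i h => by
          unfold wx
          rw [h]
          have h5 : (0 : ℝ) ≤ i := Nat.cast_nonneg i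
          apply max_eq_left
          exact le_trans (min_le_right _ _) (by simp))
        htn htl (n + 1) (by omega) q hq0 hq1
      refine ⟨i, ?_, h3⟩
      simp only [I, Finset.mem_filter, Finset.mem_range]
      exact ⟨h1, h2⟩
    have hlt1 : ∑ i ∈ I, ∏ k, max 0 (Bst D (wx n x) (n + 1) i k - Ast D (wx n x) i k) < 1 := by
      have hIne : I.Nonempty := by
        by_contra hc
        rw [Finset.not_nonempty_iff_eq_empty] at hc
        rw [hc] at hcov
        simp at hcov
        linarith
      calc ∑ i ∈ I, ∏ k, max 0 (Bst D (wx n x) (n + 1) i k - Ast D (wx n x) i k)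
          < ∑ i ∈ I, (1 / ((n : ℝ) + 1)) := by
            apply Finset.sum_lt_sum_of_nonempty hIne
            intro i hi
            simp only [I, Finset.mem_filter, Finset.mem_range] at hi
            exact hcon i hi.1 hi.2
        _ = I.card * (1 / ((n : ℝ) + 1)) := by rw [Finset.sum_const, nsmul_eq_mul]
        _ ≤ ((n : ℝ) + 1) * (1 / ((n : ℝ) + 1)) := by
            apply mul_le_mul_of_nonneg_right _ (by positivity)
            have : I.card ≤ n + 1 := by
              refine le_trans (Finset.card_filter_le _ _) ?_
              simp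
            exact_mod_cast this
        _ = 1 := by
            field_simp
    linarith
  -- partial sums
  have hFm : ∀ m, m < n → tx n x (m + 1) * (∑ j ∈ Finset.range (m + 2), gg D n x j) = gg D n x (m + 1) := by
    intro m hm
    have := congrFun hFx ⟨m, hm⟩
    simp only [F, Pi.zero_apply] at this
    simp only [tx, dif_pos hm]
    linarith
  have hgi : gg D n x i = 0 := by
    unfold gg
    exact max_eq_left (by linarith)
  have hS : ∀ m, i ≤ m → m ≤ n → ∑ j ∈ Finset.range (m + 1), gg D n x j = 0 := by
    intro m him
    induction m, him using Nat.le_induction with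
    | base =>
      intro hi
      cases i with
      | zero => simpa using hgi
      | succ i =>
        have h1 := hFm i (by omega)
        rw [hgi] at h1
        rcases hact.1 with h2 | h2
        · omega
        · rcases mul_eq_zero.1 h1 with h3 | h3
          · linarith
          · exact h3
    | succ m hm ih =>
      intro hmn
      have h1 := ih (by omega)
      have h2 := hFm m (by omega)
      have h3 : tx n x (m + 1) < 1 := hact.2 (m + 1) (by omega) (by omega)
      rw [Finset.sum_range_succ, h1, zero_add] at h2
      rw [Finset.sum_range_succ, h1, zero_add]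
      have h4 := hg0 x (m + 1)
      nlinarith
  have hSn := hS n (by omega) le_rfl
  intro j hj
  have h1 : gg D n x j = 0 :=
    (Finset.sum_eq_zero_iff_of_nonneg (fun i _ => hg0 x i)).1 hSn j (Finset.mem_range.2 (by omega))
  unfold gg at h1
  have := le_max_right 0 (1 / ((n : ℝ) + 1) - Vol D n x j)
  rw [h1] at this
  linarith

end

end H305GL
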