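import Pool.Agent.H305GL.Exist

set_option autoImplicit false

/-!
The bound for 2-increasing sequences.
-/

namespace H305GL

open MeasureTheory

theorem amgm3 (x y z : ℝ) (hx : 0 ≤ x) (hy : 0 ≤ y) (hz : 0 ≤ z) :
    27 * (x * y * z) ≤ (x + y + z) ^ 3 := by
  nlinarith [mul_nonneg hx (sq_nonneg (y - z)), mul_nonneg hy (sq_nonneg (x - z)),
    mul_nonneg hz (sq_nonneg (x - y)), mul_nonneg hx (sq_nonneg (x - y)),
    mul_nonneg hx (sq_nonneg (x - z)), mul_nonneg hy (sq_nonneg (y - x)),
    mul_nonneg hy (sq_nonneg (y - z)), mul_nonneg hz (sq_nonneg (z - x)),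
    mul_nonneg hz (sq_nonneg (z - y))]

/-- intervals that are pairwise ordered have total length at most one -/
theorem sum_len (I : Finset ℕ) (a b : ℕ → ℝ) (ha : ∀ i ∈ I, 0 ≤ a i) (hb : ∀ i ∈ I, b i ≤ 1)
    (hab : ∀ i ∈ I, a i ≤ b i)
    (h : ∀ i ∈ I, ∀ j ∈ I, i < j → b i ≤ a j) : ∑ i ∈ I, (b i - a i) ≤ 1 := by
  have h1 : (⋃ i ∈ I, Set.Ioo (a i) (b i)) ⊆ Set.Icc (0:ℝ) 1 := by
    intro q hq
    simp only [Set.mem_iUnion] at hq
    obtain ⟨i, hi, hq⟩ := hq
    exact ⟨le_trans (ha i hi) hq.1.le, le_trans hq.2.le (hb i hi)⟩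
  have h2 : volume (⋃ i ∈ I, Set.Ioo (a i) (b i)) = ∑ i ∈ I, volume (Set.Ioo (a i) (b i)) := by
    apply measure_biUnion_finset
    · intro i hi j hj hij
      have : Disjoint (Set.Ioo (a i) (b i)) (Set.Ioo (a j) (b j)) := by
        rw [Set.disjoint_left]
        intro q hq1 hq2
        rcases lt_or_gt_of_ne hij with h3 | h3
        · have := h i hi j hj h3
          linarith [hq1.2, hq2.1]
        · have := h j hj i hi h3
          linarith [hq1.1, hq2.2]
      exact this
    · intro i _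
      exact measurableSet_Ioo
  have h3 : volume (⋃ i ∈ I, Set.Ioo (a i) (b i)) ≤ volume (Set.Icc (0:ℝ) 1) := measure_mono h1
  rw [h2] at h3
  simp only [Real.volume_Ioo, Real.volume_Icc] at h3
  rw [← ENNReal.ofReal_sum_of_nonneg (fun i hi => by linarith [hab i hi])] at h3
  have h4 := (ENNReal.ofReal_le_ofReal_iff (by norm_num)).1 h3
  linarith

theorem gowers_long (n m : ℕ) (s : Fin m → (Fin 3 → ℕ))
    (h1 : ∀ k : Fin m, ∀ i : Fin 3, 1 ≤ s k i ∧ s k i ≤ n)
    (h2 : ∀ j k : Fin m, j < k → 2 ≤ (Finset.univ.filter (fun i : Fin 3 => s j i < s k i)).card) :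
    (m : ℝ) ^ 2 ≤ (n : ℝ) ^ 3 := by
  classical
  rcases Nat.eq_zero_or_pos m with hm | hm
  · subst hm
    simp
  obtain ⟨N, rfl⟩ : ∃ N, m = N + 1 := ⟨m - 1, by omega⟩
  -- the coordinates as functions on ℕ
  let X : Fin 3 → ℕ → ℕ := fun k i => if h : i < N + 1 then s ⟨i, h⟩ k else 0
  let D : Fin 3 → ℕ → ℕ → Prop := fun k i j => i < j ∧ j < N + 1 ∧ X k j ≤ X k i
  have hlt : ∀ k i j, D k i j → i < j := fun k i j h => h.1
  have hdisj : ∀ k l i j, D k i j → D l i j → k = l := by
    intro k l i j hk hl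
    by_contra hne
    obtain ⟨hij, hj, hk3⟩ := hk
    have hl3 := hl.2.2
    have hi : i < N + 1 := by omega
    simp only [X, dif_pos hj, dif_pos hi] at hk3 hl3
    have hcard := h2 ⟨i, hi⟩ ⟨j, hj⟩ hij
    have hsub : (Finset.univ.filter (fun a : Fin 3 => s ⟨i, hi⟩ a < s ⟨j, hj⟩ a)) ⊆
        (Finset.univ.erase k).erase l := by
      intro a ha
      simp only [Finset.mem_filter, Finset.mem_univ, true_and] at ha
      rw [Finset.mem_erase, Finset.mem_erase]
      refine ⟨?_, ?_, Finset.mem_univ _⟩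
      · rintro rfl; omega
      · rintro rfl; omega
    have hc := Finset.card_le_card hsub
    have hc2 : ((Finset.univ.erase k).erase l : Finset (Fin 3)).card = 1 := by
      rw [Finset.card_erase_of_mem, Finset.card_erase_of_mem (Finset.mem_univ k)]
      · simp
      · rw [Finset.mem_erase]
        exact ⟨Ne.symm hne, Finset.mem_univ _⟩
    omega
  have hco : ∀ k i j l, D k i l → i < j → j < l → D k i j ∨ D k j l := by
    intro k i j l h hij hjl
    obtain ⟨_, hl, h3⟩ := h
    by_cases h4 : X k j ≤ X k i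
    · exact Or.inl ⟨hij, by omega, h4⟩
    · refine Or.inr ⟨hjl, hl, ?_⟩
      omega
  obtain ⟨x, hx⟩ := exists_param D hlt hdisj hco N
  let A : ℕ → Fin 3 → ℝ := fun i k => Ast D (wx N x) i k
  let B : ℕ → Fin 3 → ℝ := fun i k => Bst D (wx N x) (N + 1) i k
  have hpos : ∀ i, i ≤ N → ∀ k, A i k < B i k := by
    intro i hi k
    by_contra hcon
    push Not at hcon
    have h3 := hx i hi
    have h4 : Vol D N x i = 0 := by
      unfold Vol
      apply Finset.prod_eq_zero (Finset.mem_univ k)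
      apply max_eq_left
      simp only [A, B] at hcon
      linarith
    rw [h4] at h3
    have : 0 < 1 / ((N : ℝ) + 1) := by positivity
    linarith
  have hvol : ∀ i, i ≤ N → 1 / ((N : ℝ) + 1) ≤ (B i 0 - A i 0) * (B i 1 - A i 1) * (B i 2 - A i 2) := by
    intro i hi
    have h3 := hx i hi
    unfold Vol at h3
    rw [Fin.prod_univ_three] at h3
    have e : ∀ k, max 0 (Bst D (wx N x) (N + 1) i k - Ast D (wx N x) i k) = B i k - A i k := by
      intro k
      apply max_eq_right
      have := hpos i hi k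
      simp only [A, B] at this
      linarith
    rw [e 0, e 1, e 2] at h3
    exact h3
  -- lengths in one direction
  have hdir : ∀ k, ∑ i ∈ Finset.range (N + 1), (B i k - A i k) ≤ n := by
    intro k
    have hmaps : ∀ i ∈ Finset.range (N + 1), X k i ∈ Finset.Icc 1 n := by
      intro i hi
      have hi' : i < N + 1 := Finset.mem_range.1 hi
      simp only [X, dif_pos hi']
      exact Finset.mem_Icc.2 (h1 ⟨i, hi'⟩ k)
    rw [← Finset.sum_fiberwise_of_maps_to hmaps]
    calc ∑ v ∈ Finset.Icc 1 n, ∑ i ∈ (Finset.range (N + 1)).filter (fun i => X k i = v), (B i k - A i k)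
        ≤ ∑ v ∈ Finset.Icc 1 n, (1:ℝ) := by
          apply Finset.sum_le_sum
          intro v _
          apply sum_len
          · intro i _; exact Ast_nonneg D _ i k
          · intro i _; exact Bst_le_one D _ (N + 1) i k
          · intro i hi
            have hi' := Finset.mem_range.1 (Finset.mem_filter.1 hi).1
            exact (hpos i (by omega) k).le
          · intro i hi j hj hij
            have hj' := Finset.mem_range.1 (Finset.mem_filter.1 hj).1
            have ei := (Finset.mem_filter.1 hi).2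
            have ej := (Finset.mem_filter.1 hj).2
            exact Bst_le_Ast D _ (N + 1) i j k hj' ⟨hij, hj', by rw [ei, ej]⟩
      _ = n := by simp
  -- AM-GM
  have hN : (0:ℝ) < (N:ℝ) + 1 := by positivity
  let c : ℝ := (1 / ((N:ℝ) + 1)) ^ ((1:ℝ) / 3)
  have hc0 : 0 ≤ c := by positivity
  have hc3 : c ^ 3 = 1 / ((N:ℝ) + 1) := by
    simp only [c]
    rw [← Real.rpow_natCast, ← Real.rpow_mul (by positivity)]
    norm_num
  have hsum : ∀ i ∈ Finset.range (N + 1), 3 * c ≤ (B i 0 - A i 0) + (B i 1 - A i 1) + (B i 2 - A i 2) := by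
    intro i hi
    have hi' : i ≤ N := by have := Finset.mem_range.1 hi; omega
    have p0 := hpos i hi' 0
    have p1 := hpos i hi' 1
    have p2 := hpos i hi' 2
    have h3 := amgm3 (B i 0 - A i 0) (B i 1 - A i 1) (B i 2 - A i 2) (by linarith) (by linarith) (by linarith)
    have h4 := hvol i hi'
    by_contra hcon
    push Not at hcon
    have h5 : ((B i 0 - A i 0) + (B i 1 - A i 1) + (B i 2 - A i 2)) ^ 3 < (3 * c) ^ 3 :=
      pow_lt_pow_left₀ hcon (by linarith) (by norm_num)
    have h6 : (3 * c) ^ 3 = 27 * (1 / ((N:ℝ) + 1)) := by rw [mul_pow, hc3]; norm_num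
    rw [h6] at h5
    linarith
  have htot : ((N:ℝ) + 1) * (3 * c) ≤ 3 * n := by
    calc ((N:ℝ) + 1) * (3 * c) = ∑ i ∈ Finset.range (N + 1), 3 * c := by
          rw [Finset.sum_const, Finset.card_range, nsmul_eq_mul]; push_cast; ring
      _ ≤ ∑ i ∈ Finset.range (N + 1), ((B i 0 - A i 0) + (B i 1 - A i 1) + (B i 2 - A i 2)) :=
          Finset.sum_le_sum hsum
      _ = ∑ i ∈ Finset.range (N + 1), (B i 0 - A i 0) + ∑ i ∈ Finset.range (N + 1), (B i 1 - A i 1)
          + ∑ i ∈ Finset.range (N + 1), (B i 2 - A i 2) := by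
          rw [← Finset.sum_add_distrib, ← Finset.sum_add_distrib]
      _ ≤ n + n + n := add_le_add (add_le_add (hdir 0) (hdir 1)) (hdir 2)
      _ = 3 * n := by ring
  have hNc : ((N:ℝ) + 1) * c ≤ n := by linarith
  have hcube : (((N:ℝ) + 1) * c) ^ 3 ≤ (n:ℝ) ^ 3 := pow_le_pow_left₀ (by positivity) hNc 3
  have hfin : (((N:ℝ) + 1) * c) ^ 3 = ((N:ℝ) + 1) ^ 2 := by
    rw [mul_pow, hc3]
    field_simp
  rw [hfin] at hcube
  push_cast
  exact hcube

end H305GL
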